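import Pool.Agent.H12.KP.Targets4

/-!
# CDEN: common denominator (helper54)
-/

namespace Pool.Agent.H54.KP

open Pool.Agent.H12.KP Polynomial TensorProduct

universe u v

/-- the ideal of the denominators of `s` -/
def denI {A D : Type u} [CommRing A] [CommRing D] [Algebra A D]
    (𝒟 : ℕ → Submodule A D) [GradedAlgebra 𝒟] (L : Type u) [Field L] [Algebra D L] (s : L) :
    Ideal D where
  carrier := {x | ∀ n, ∃ a ∈ 𝒟 n,
    s * algebraMap D L (DirectSum.decompose 𝒟 x n : D) = algebraMap D L a}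
  zero_mem' := fun n => ⟨0, Submodule.zero_mem _, by simp⟩
  add_mem' := by
    intro x y hx hy n
    obtain ⟨a, ha, ha'⟩ := hx n
    obtain ⟨b, hb, hb'⟩ := hy n
    refine ⟨a + b, Submodule.add_mem _ ha hb, ?_⟩
    rw [DirectSum.decompose_add, DirectSum.add_apply, Submodule.coe_add, map_add, map_add,
      mul_add, ha', hb']
  smul_mem' := by
    intro c x hx
    refine DirectSum.Decomposition.inductionOn 𝒟
      (motive := fun c => ∀ n, ∃ a ∈ 𝒟 n,
        s * algebraMap D L (DirectSum.decompose 𝒟 (c • x) n : D) = algebraMap D L a) ?_ ?_ ?_ c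
    · intro n
      exact ⟨0, Submodule.zero_mem _, by simp⟩
    · intro i m n
      by_cases h : i ≤ n
      · obtain ⟨a, ha, ha'⟩ := hx (n - i)
        refine ⟨(m : D) * a, ?_, ?_⟩
        · have := SetLike.GradedMul.mul_mem m.2 ha
          rwa [Nat.add_sub_cancel' h] at this
        · rw [smul_eq_mul, DirectSum.coe_decompose_mul_of_left_mem_of_le 𝒟 m.2 h, map_mul,
            map_mul, ← ha']
          ring
      · refine ⟨0, Submodule.zero_mem _, ?_⟩
        rw [smul_eq_mul, DirectSum.coe_decompose_mul_of_left_mem_of_not_le 𝒟 m.2 h]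
        simp
    · intro c d hc hd n
      obtain ⟨a, ha, ha'⟩ := hc n
      obtain ⟨b, hb, hb'⟩ := hd n
      refine ⟨a + b, Submodule.add_mem _ ha hb, ?_⟩
      rw [add_smul, DirectSum.decompose_add, DirectSum.add_apply, Submodule.coe_add, map_add,
        map_add, mul_add, ha', hb']

theorem mem_denI {A D : Type u} [CommRing A] [CommRing D] [Algebra A D]
    (𝒟 : ℕ → Submodule A D) [GradedAlgebra 𝒟] (L : Type u) [Field L] [Algebra D L] (s : L)
    (n : ℕ) (x : D) (hx : x ∈ 𝒟 n) :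
    x ∈ denI 𝒟 L s ↔ ∃ a ∈ 𝒟 n, s * algebraMap D L x = algebraMap D L a := by
  constructor
  · intro h
    obtain ⟨a, ha, ha'⟩ := h n
    rw [DirectSum.decompose_of_mem_same 𝒟 hx] at ha'
    exact ⟨a, ha, ha'⟩
  · rintro ⟨a, ha, ha'⟩ m
    by_cases h : n = m
    · subst h
      refine ⟨a, ha, ?_⟩
      rw [DirectSum.decompose_of_mem_same 𝒟 hx]
      exact ha'
    · refine ⟨0, Submodule.zero_mem _, ?_⟩
      rw [DirectSum.decompose_of_mem_ne 𝒟 hx h]
      simp

theorem homog_denI {A D : Type u} [CommRing A] [CommRing D] [Algebra A D]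
    (𝒟 : ℕ → Submodule A D) [GradedAlgebra 𝒟] (L : Type u) [Field L] [Algebra D L] (s : L) :
    (denI 𝒟 L s).IsHomogeneous 𝒟 := by
  intro i x hx
  rw [mem_denI 𝒟 L s i _ (SetLike.coe_mem _)]
  exact hx i

theorem pf_CDEN (hAV : S_AVOID.{u,u}) : S_CDEN.{u} := by
  intro A D _ _ _ _ _ 𝒟 _ L _ _ _ Q s hs hQ hsQ
  rcases Q.eq_empty_or_nonempty with hQe | ⟨P0, hP0⟩
  · obtain ⟨d, a, ha, b, hb, hb0, hab⟩ := hs
    refine ⟨d, a, b, ha, hb, ?_, ?_, hab⟩
    · intro h
      apply hb0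
      rw [h]
      exact Submodule.zero_mem _
    · intro P hP
      rw [hQe] at hP
      simp at hP
  · obtain ⟨n, -, f, hf, hfI, hfQ⟩ := hAV A D 𝒟 (denI 𝒟 L s) (homog_denI 𝒟 L s) Q hQ
      (fun P hP hle => by
        obtain ⟨d, a, ha, b, hb, hbP, hab⟩ := hsQ P hP
        exact hbP (hle ((mem_denI 𝒟 L s d b hb).2 ⟨a, ha, hab⟩)))
    obtain ⟨a, ha, ha'⟩ := (mem_denI 𝒟 L s n f hf).1 hfI
    refine ⟨n, a, f, ha, hf, ?_, hfQ, ha'⟩
    intro h
    apply hfQ P0 hP0
    rw [h]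
    exact Submodule.zero_mem _

end Pool.Agent.H54.KP
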